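import Pool.Agent.Y124.TH.Bc
import Pool.Agent.Y113.GG.Main

/-!
# The values of the solution at several points
-/

set_option autoImplicit false

open Matrix Polynomial Filter Topology

namespace Pool.Agent.Y124.TH

open Pool.Agent.Y118.HP Pool.Agent.Y118.HG Pool.Agent.Y113 Pool.Agent.Y37.GF

variable {n : ℕ}

/-- the matrix of the values -/
noncomputable def Zc (Z : Matrix (Fin n) (Fin n) (PowerSeries ℚ)) (z : ℝ) : Matrix (Fin n) (Fin n) ℂ := (Ez Z z).map (algebraMap ℝ ℂ)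

/-- the values are symplectic -/
lemma Ez_mem {Z : Matrix (Fin n) (Fin n) (PowerSeries ℚ)} (hJ : Z * jm (PowerSeries ℚ) n * Z.transpose = jm (PowerSeries ℚ) n)
    {ρ : ℝ} (h0 : 0 < ρ) (hZ : SRm ρ Z) {z : ℝ} (hz : |z| ≤ ρ) : Ez Z z ∈ SpS ℝ n := by
  have hJ0 : (jm ℚ[X] n).map c0 = jm (PowerSeries ℚ) n := jm_map c0
  have hJr : ∀ r, SRm r (jm (PowerSeries ℚ) n) := fun r => by rw [← hJ0]; exact SRm.poly _ _
  have hJz : ∀ z, Ez (jm (PowerSeries ℚ) n) z = jm ℝ n := by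
    intro z
    rw [← hJ0, Ez_poly]
    exact jm_map ((aeval z : ℚ[X] →ₐ[ℚ] ℝ) : ℚ[X] →+* ℝ)
  have hZT : SRm ρ Z.transpose := fun i j => hZ j i
  show Ez Z z * jm ℝ n * (Ez Z z).transpose = jm ℝ n
  have h1 : Ez (Z * jm (PowerSeries ℚ) n * Z.transpose) z = Ez (jm (PowerSeries ℚ) n) z := by rw [hJ]
  rw [Ez_mul h0.le (hZ.mul h0.le (hJr _)) hZT hz, Ez_mul h0.le hZ (hJr _) hz, hJz] at h1
  exact h1

/-- the denominator is not zero -/
lemma cd_ne {κ : Type} [Fintype κ] {D0 : ℕ} {k0 : κ} {b : κ → Fin n × Fin n → ℕ} {w : (Fin n × Fin n → ℕ) → κ → ℚ}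
    (hb0 : b k0 = 0) (hw : ∀ s, dg s ≤ D0 → ∀ g ∈ SpS ℂ n, mnm g s = ∑ k, (w s k : ℂ) * mnm g (b k))
    (hD : (Fs (Xm n) (fun _ : Sy n => (0 : Fin 2))).totalDegree ≤ D0) {k : ℕ} {Z : Fin k → Matrix (Fin n) (Fin n) ℂ}
    (hZ : ∀ l, Z l ∈ SpS ℂ n) (hli : LinearIndependent ℚ (fun e : Fin k → κ => ∏ i, mnm (Z i) (b (e i)))) (hn0 : n ≠ 0)
    (l : Fin k) : cd (Z l) ≠ 0 := by
  classical
  intro hcd
  have hne : Nonempty (Sy n) := ⟨⟨(⟨0, Nat.pos_of_ne_zero hn0⟩, ⟨0, Nat.pos_of_ne_zero hn0⟩), le_rfl⟩⟩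
  have h1 := hli.comp (fun k' : κ => Function.update (fun _ : Fin k => k0) l k') (by
    intro x y hxy
    have := congrFun hxy l
    simpa using this)
  have h2 : (fun e : Fin k → κ => ∏ i, mnm (Z i) (b (e i))) ∘ (fun k' : κ => Function.update (fun _ : Fin k => k0) l k') =
      fun k' => mnm (Z l) (b k') := by
    funext k'
    show ∏ i, mnm (Z i) (b (Function.update (fun _ : Fin k => k0) l k' i)) = _
    rw [← Finset.mul_prod_erase _ _ (Finset.mem_univ l), Function.update_self]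
    rw [Finset.prod_eq_one (s := Finset.univ.erase l) (fun i hi => by
      rw [Function.update_of_ne (Finset.ne_of_mem_erase hi), hb0]
      simp [mnm]), mul_one]
  rw [h2] at h1
  have h3 := Fs_exp hw (fun _ : Sy n => (0 : Fin 2)) hD (hZ l)
  have h4 : Fs (Z l) (fun _ : Sy n => (0 : Fin 2)) = 0 := by
    unfold Fs
    refine Finset.prod_eq_zero (Finset.mem_univ (Classical.choice hne)) ?_
    rw [hcd]
    simp
  rw [h4] at h3
  have h5 := (Fintype.linearIndependent_iff.1 h1) (fun k' => Mc w (fun _ : Sy n => (0 : Fin 2)) k') (by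
    rw [h3]
    refine Finset.sum_congr rfl fun e _ => ?_
    rw [Rat.smul_def])
  have h6 := Fs_exp hw (fun _ : Sy n => (0 : Fin 2)) hD (SpS_one : (1 : Matrix (Fin n) (Fin n) ℂ) ∈ SpS ℂ n)
  rw [Finset.sum_eq_zero fun k' _ => by rw [h5 k', Rat.cast_zero, zero_mul]] at h6
  have h7 : cd (1 : Matrix (Fin n) (Fin n) ℂ) = 2 ^ n := by
    unfold cd
    rw [one_add_one_eq_two]
    have : (2 : Matrix (Fin n) (Fin n) ℂ) = (2 : ℂ) • 1 := by
      rw [← one_add_one_eq_two, ← one_add_one_eq_two, add_smul, one_smul]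
    rw [this, Matrix.det_smul, Matrix.det_one, mul_one, Fintype.card_fin]
  unfold Fs at h6
  rw [Finset.prod_eq_zero_iff] at h6
  obtain ⟨p, -, hp⟩ := h6
  rw [h7] at hp
  simp at hp

lemma exists_D0 (n N : ℕ) : ∃ D0 : ℕ, (∀ s : Sy n → Fin (N + 1), (Fs (Xm n) s).totalDegree ≤ D0) ∧
    (Fs (Xm n) (fun _ : Sy n => (0 : Fin 2))).totalDegree ≤ D0 := by
  classical
  exact ⟨(Finset.univ.sup fun s : Sy n → Fin (N + 1) => (Fs (Xm n) s).totalDegree) +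
    (Fs (Xm n) (fun _ : Sy n => (0 : Fin 2))).totalDegree, fun s =>
      (Finset.le_sup (f := fun s : Sy n → Fin (N + 1) => (Fs (Xm n) s).totalDegree) (Finset.mem_univ s)).trans (Nat.le_add_right _ _),
      Nat.le_add_left _ _⟩

/-- from real to complex numbers -/
lemma li_cx {κ : Type} {k : ℕ} (b : κ → Fin n × Fin n → ℕ) (Z : Fin k → Matrix (Fin n) (Fin n) ℝ)
    (hli : LinearIndependent ℚ (fun e : Fin k → κ => ∏ i, mnm (Z i) (b (e i)))) :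
    LinearIndependent ℚ (fun e : Fin k → κ => ∏ i, mnm ((Z i).map (algebraMap ℝ ℂ)) (b (e i))) := by
  have h3 := hli.map' ((Algebra.linearMap ℝ ℂ).restrictScalars ℚ) (by
    rw [LinearMap.ker_eq_bot]
    intro x y hxy
    exact Complex.ofReal_injective hxy)
  have h4 : (fun e : Fin k → κ => ∏ i, mnm ((Z i).map (algebraMap ℝ ℂ)) (b (e i))) =
      ((Algebra.linearMap ℝ ℂ).restrictScalars ℚ) ∘ (fun e : Fin k → κ => ∏ i, mnm (Z i) (b (e i))) := by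
    funext e
    show _ = (algebraMap ℝ ℂ) (∏ i, mnm (Z i) (b (e i)))
    rw [map_prod]
    exact Finset.prod_congr rfl fun i _ => mnm_map _ _ _
  rw [h4]
  exact h3

/-- **The base** -/
theorem base (hn : Even n) (hn0 : n ≠ 0) {a : Fin n → ℝ} (ha : StrictMono a) {m : Fin (n + 1)} {f : ℚ[X]}
    (h0 : InGap a m 0) (hf : f.map (algebraMap ℚ ℝ) = ∏ i, (X - C (a i))) (hf0 : f.coeff 0 ≠ 0) (Δ : ZDat n a m f)
    {G0 : ℕ} (hsep : ∀ {r : ℕ} (g : Fin r → ℕ), SepN G0 g → Sep a (fun l => (g l : ℝ))) (k N : ℕ) :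
    ∃ E : ℕ, ∀ H t : ℕ, (H + 2) ^ E ≤ t → (H < t) ∧ ∀ g : Fin k → ℕ, SepN G0 g → (∀ l, g l ≤ H) →
      (∀ l, InGap a m (1 / ((t : ℝ) - g l)) ∧
        CM a m (1 / ((t : ℝ) - g l)) = AC a m Δ.V * Zc Δ.Z (1 / ((t : ℝ) - g l)) *
          Δ.U.map (aeval (((1 / ((t : ℝ) - g l) : ℝ)) : ℂ)) ∧
        cd (Zc Δ.Z (1 / ((t : ℝ) - g l))) ≠ 0) ∧
      LinearIndependent ℚ (fun s : Fin k × Sy n → Fin (N + 1) => ∏ i, co (Zc Δ.Z (1 / ((t : ℝ) - g i.1))) i.2 ^ (s i : ℕ)) := by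
  classical
  have ha0 : ∀ i, a i ≠ 0 := fun i => ne_zero_of_gap h0 i
  obtain ⟨D0, hD0a, hD0b⟩ := exists_D0 n N
  obtain ⟨κ, _, k0, b, w, hb0, hbD, hw, hb⟩ := exists_basis1 hn D0
  obtain ⟨E, hE⟩ := li_val hn ha ha0 h0 hf hf0 Δ hsep D0 k0 b w hb0 hbD hw hb k
  obtain ⟨ρ, hρ, hZ'⟩ := SDc_SR' (fun p : Fin n × Fin n => Δ.Z p.1 p.2) fun p => Δ.sdZ p.1 p.2
  have hZ : SRm ρ Δ.Z := fun i j => hZ' (i, j)
  obtain ⟨ε, hε, hval⟩ := Metric.eventually_nhds_iff.1 (CM_val hn ha h0 Δ)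
  obtain ⟨c₂, hc₂⟩ := Pool.Agent.Y678.HG.exists_two_pow (1 / ρ + 1 / ε + 1)
  refine ⟨E + (c₂ + 1), fun H t ht => ?_⟩
  have h1 : (H + 2) ^ E ≤ t := (Nat.pow_le_pow_right (by omega) (by omega)).trans ht
  obtain ⟨hHt, h2⟩ := hE H t h1
  have hHt' : H < t := by exact_mod_cast hHt
  refine ⟨hHt', fun g hg hgH => ?_⟩
  have hli := h2 g hg hgH
  have hsm : ∀ l, |1 / ((t : ℝ) - g l)| ≤ ρ ∧ |1 / ((t : ℝ) - g l)| < ε := by
    intro l
    have h5 := Pool.Agent.Y113.GG.sub_large (c := c₂) (by omega : c₂ + 1 ≤ E + (c₂ + 1)) ht (hgH l)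
    have h6 : (2 : ℝ) ^ c₂ ≤ ((t - g l : ℕ) : ℝ) := by exact_mod_cast h5
    have hgl := hgH l
    rw [Nat.cast_sub (by omega)] at h6
    have h7 : 1 / ρ + 1 / ε + 1 ≤ (t : ℝ) - g l := hc₂.trans h6
    have h8 : 0 < 1 / ρ := by positivity
    have h9 : 0 < 1 / ε := by positivity
    have h10 : 0 < (t : ℝ) - g l := by linarith
    rw [abs_of_pos (by positivity)]
    constructor
    · rw [div_le_iff₀ h10]
      have : ρ * (1 / ρ) ≤ ρ * ((t : ℝ) - g l) := mul_le_mul_of_nonneg_left (by linarith) hρ.le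
      rwa [mul_one_div_cancel hρ.ne'] at this
    · rw [div_lt_iff₀ h10]
      have : ε * (1 / ε) < ε * ((t : ℝ) - g l) := mul_lt_mul_of_pos_left (by linarith) hε
      rwa [mul_one_div_cancel hε.ne'] at this
  have hspc : ∀ l, Zc Δ.Z (1 / ((t : ℝ) - g l)) ∈ SpS ℂ n := fun l =>
    SpS_map (algebraMap ℝ ℂ) (Ez_mem Δ.zJ hρ hZ (hsm l).1)
  have hlic : LinearIndependent ℚ (fun e : Fin k → κ => ∏ i, mnm (Zc Δ.Z (1 / ((t : ℝ) - g i))) (b (e i))) := li_cx b _ hli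
  have hcd : ∀ l, cd (Zc Δ.Z (1 / ((t : ℝ) - g l))) ≠ 0 := fun l =>
    cd_ne hb0 hw hD0b hspc hlic hn0 l
  have hco := li_co hn hw hD0a hspc hcd hlic
  refine ⟨fun l => ?_, hco⟩
  have h3 := hval (y := 1 / ((t : ℝ) - g l)) (by
    rw [Real.dist_eq, sub_zero]
    exact (hsm l).2)
  exact ⟨h3.1, h3.2, hcd l⟩

end Pool.Agent.Y124.TH
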