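import Pool.Agent.Y118.HG.Kx

/-!
# Independence of the Cayley coordinates of the solution at several points
-/

set_option autoImplicit false

open Matrix

namespace Pool.Agent.Y124.TH

open Pool.Agent.Y118.HP Pool.Agent.Y118.HG

variable {n : ℕ}

section fs
variable {R : Type*} [CommRing R] [Algebra ℚ R] {L : Type*} [CommRing L] [Algebra ℚ L]

/-- the numerator of a monomial in the Cayley coordinates -/
noncomputable def Fs {N : ℕ} (S : Matrix (Fin n) (Fin n) R) (s : Sy n → Fin (N + 1)) : R :=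
  ∏ p, (cn S p ^ (s p : ℕ) * cd S ^ (N - (s p : ℕ)))

lemma Fs_map {N : ℕ} (φ : R →+* L) (S : Matrix (Fin n) (Fin n) R) (s : Sy n → Fin (N + 1)) : φ (Fs S s) = Fs (S.map φ) s := by
  unfold Fs
  rw [map_prod]
  refine Finset.prod_congr rfl fun p _ => ?_
  rw [map_mul, map_pow, map_pow, cn_map, cd_map]

/-- the generic matrix -/
noncomputable def Xm (n : ℕ) : Matrix (Fin n) (Fin n) (MvPolynomial (Fin n × Fin n) ℚ) :=
  Matrix.of fun i j => MvPolynomial.X (i, j)

lemma Fs_aeval {N : ℕ} (S : Matrix (Fin n) (Fin n) R) (s : Sy n → Fin (N + 1)) :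
    MvPolynomial.aeval (fun p : Fin n × Fin n => S p.1 p.2) (Fs (Xm n) s) = Fs S s := by
  have h1 := Fs_map ((MvPolynomial.aeval (fun p : Fin n × Fin n => S p.1 p.2) : MvPolynomial (Fin n × Fin n) ℚ →ₐ[ℚ] R) :
    MvPolynomial (Fin n × Fin n) ℚ →+* R) (Xm n) s
  have h2 : (Xm n).map ((MvPolynomial.aeval (fun p : Fin n × Fin n => S p.1 p.2) : MvPolynomial (Fin n × Fin n) ℚ →ₐ[ℚ] R) :
    MvPolynomial (Fin n × Fin n) ℚ →+* R) = S := by
    ext i j
    simp [Xm]
  rw [h2] at h1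
  exact h1

end fs

lemma Fs_co {K : Type*} [Field K] [Algebra ℚ K] {N : ℕ} {S : Matrix (Fin n) (Fin n) K} (hS : cd S ≠ 0) (s : Sy n → Fin (N + 1)) :
    Fs S s = cd S ^ (N * Fintype.card (Sy n)) * ∏ p, co S p ^ (s p : ℕ) := by
  unfold Fs
  have h1 : cd S ^ (N * Fintype.card (Sy n)) = ∏ _p : Sy n, cd S ^ N := by
    rw [Finset.prod_const, Finset.card_univ, ← pow_mul]
  rw [h1, ← Finset.prod_mul_distrib]
  refine Finset.prod_congr rfl fun p _ => ?_
  have h4 : (s p : ℕ) ≤ N := Nat.lt_succ_iff.1 (s p).2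
  rw [cn_eq hS, mul_pow, mul_right_comm, ← pow_add, Nat.add_sub_cancel' h4]

/-- the coefficients -/
noncomputable def Mc {κ : Type} (w : (Fin n × Fin n → ℕ) → κ → ℚ) {N : ℕ} (s : Sy n → Fin (N + 1)) (k : κ) : ℚ :=
  ∑ μ ∈ (Fs (Xm n) s).support, (Fs (Xm n) s).coeff μ * w (fun p => μ p) k

/-- the expansion on the symplectic group -/
lemma Fs_exp {κ : Type} [Fintype κ] {D0 : ℕ} {b : κ → Fin n × Fin n → ℕ} {w : (Fin n × Fin n → ℕ) → κ → ℚ}
    (hw : ∀ s, dg s ≤ D0 → ∀ g ∈ SpS ℂ n, mnm g s = ∑ k, (w s k : ℂ) * mnm g (b k)) {N : ℕ}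
    (s : Sy n → Fin (N + 1)) (hD : (Fs (Xm n) s).totalDegree ≤ D0) {g : Matrix (Fin n) (Fin n) ℂ} (hg : g ∈ SpS ℂ n) :
    Fs g s = ∑ k, (Mc w s k : ℂ) * mnm g (b k) := by
  rw [← Fs_aeval, MvPolynomial.aeval_def, MvPolynomial.eval₂_eq']
  have h1 : ∀ μ ∈ (Fs (Xm n) s).support, (algebraMap ℚ ℂ) ((Fs (Xm n) s).coeff μ) * ∏ p, g p.1 p.2 ^ μ p =
      ∑ k, ((((Fs (Xm n) s).coeff μ * w (fun p => μ p) k : ℚ)) : ℂ) * mnm g (b k) := by
    intro μ hμ
    have h2 : dg (fun p => μ p) ≤ D0 := by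
      have h3 := (MvPolynomial.le_totalDegree hμ).trans hD
      rwa [Finsupp.sum_fintype _ _ (fun _ => rfl)] at h3
    have h4 := hw (fun p => μ p) h2 g hg
    have h5 : ∏ p, g p.1 p.2 ^ μ p = mnm g (fun p => μ p) := rfl
    rw [h5, h4, Finset.mul_sum]
    refine Finset.sum_congr rfl fun k _ => ?_
    push_cast
    rw [eq_ratCast]
    ring
  rw [Finset.sum_congr rfl h1, Finset.sum_comm]
  refine Finset.sum_congr rfl fun k _ => ?_
  unfold Mc
  push_cast
  rw [Finset.sum_mul]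

/-- independence of the monomials in the Cayley coordinates as functions -/
lemma box_fun (hn : Even n) {k N : ℕ} (c : (Fin k × Sy n → Fin (N + 1)) → ℂ)
    (h : ∀ g : Fin k → Matrix (Fin n) (Fin n) ℂ, (∀ l, g l ∈ SpS ℂ n) → ∑ s, c s * ∏ l, Fs (g l) (fun p => s (l, p)) = 0) : c = 0 := by
  classical
  -- the polynomial
  set P : MvPolynomial (Fin k × Sy n) ℂ := ∑ s, MvPolynomial.C (c s) * ∏ i, MvPolynomial.X i ^ (s i : ℕ) with hP
  set Q : MvPolynomial (Fin k × Sy n) ℂ := ∏ l : Fin k, De (fun p : Sy n => (MvPolynomial.X (l, p) : MvPolynomial (Fin k × Sy n) ℂ)) with hQ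
  have hQe : ∀ y : Fin k × Sy n → ℂ, MvPolynomial.eval y Q = ∏ l, De (fun p => y (l, p)) := by
    intro y
    rw [hQ, map_prod]
    refine Finset.prod_congr rfl fun l _ => ?_
    rw [De_map]
    congr 1
    funext p
    exact MvPolynomial.eval_X _
  have hQ0 : Q ≠ 0 := by
    intro h0
    have h1 := hQe (fun _ => 0)
    rw [h0, map_zero] at h1
    have h2 : ∀ l : Fin k, De (fun p : Sy n => (0 : ℂ)) = 1 := by
      intro _
      unfold De
      have h3 : Bm (fun p : Sy n => (0 : ℂ)) = 0 := by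
        unfold Bm
        have h4 : Ym (fun p : Sy n => (0 : ℂ)) = 0 := by
          ext i j
          unfold Ym
          rw [Matrix.of_apply, Matrix.zero_apply]
          split_ifs <;> rfl
        rw [h4, Matrix.zero_mul]
      rw [h3, sub_zero, Matrix.det_one]
    rw [Finset.prod_congr rfl fun l _ => h2 l, Finset.prod_const_one] at h1
    exact zero_ne_one h1
  have hPQ : P * Q = 0 := by
    refine MvPolynomial.funext fun y => ?_
    rw [map_mul, map_zero, hQe]
    by_cases hy : ∃ l, De (fun p => y (l, p)) = 0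
    · obtain ⟨l, hl⟩ := hy
      rw [Finset.prod_eq_zero (Finset.mem_univ l) hl, mul_zero]
    · push Not at hy
      have h1 := h (fun l => Cay (fun p => y (l, p))) (fun l => Cay_mem hn (hy l))
      have h2 : ∀ s : Fin k × Sy n → Fin (N + 1), ∏ l, Fs (Cay (fun p => y (l, p))) (fun p => s (l, p)) =
          (∏ l, cd (Cay (fun p => y (l, p))) ^ (N * Fintype.card (Sy n))) * ∏ i, y i ^ (s i : ℕ) := by
        intro s
        rw [Fintype.prod_prod_type, ← Finset.prod_mul_distrib]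
        refine Finset.prod_congr rfl fun l _ => ?_
        obtain ⟨h3, h4⟩ := co_Cay hn (hy l)
        rw [Fs_co h3, h4]
      have h3 : ∑ s, c s * ∏ l, Fs (Cay (fun p => y (l, p))) (fun p => s (l, p)) =
          (∏ l, cd (Cay (fun p => y (l, p))) ^ (N * Fintype.card (Sy n))) * ∑ s, c s * ∏ i, y i ^ (s i : ℕ) := by
        rw [Finset.mul_sum]
        refine Finset.sum_congr rfl fun s _ => ?_
        rw [h2]
        ring
      rw [h3] at h1
      have h4 : MvPolynomial.eval y P = ∑ s, c s * ∏ i, y i ^ (s i : ℕ) := by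
        rw [hP, map_sum]
        refine Finset.sum_congr rfl fun s _ => ?_
        rw [map_mul, MvPolynomial.eval_C, map_prod]
        congr 1
        refine Finset.prod_congr rfl fun i _ => ?_
        rw [map_pow, MvPolynomial.eval_X]
      rw [h4, (mul_eq_zero.1 h1).resolve_left (Finset.prod_ne_zero_iff.2 fun l _ => pow_ne_zero _ (co_Cay hn (hy l)).1), zero_mul]
  have hP0 : P = 0 := (mul_eq_zero.1 hPQ).resolve_right hQ0
  -- coefficients
  let φ : (Fin k × Sy n → Fin (N + 1)) → (Fin k × Sy n →₀ ℕ) := fun s => Finsupp.equivFunOnFinite.symm fun i => (s i : ℕ)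
  have hφ : Function.Injective φ := by
    intro s s' hss
    funext i
    exact Fin.ext (DFunLike.congr_fun hss i)
  have hP' : P = ∑ s, MvPolynomial.monomial (φ s) (c s) := by
    rw [hP]
    refine Finset.sum_congr rfl fun s _ => ?_
    rw [MvPolynomial.monomial_eq, Finsupp.prod_fintype]
    · rfl
    · intro i
      exact pow_zero _
  funext s
  have h5 := congrArg (MvPolynomial.coeff (φ s)) (hP'.symm.trans hP0)
  rw [MvPolynomial.coeff_sum, Finset.sum_eq_single s] at h5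
  · rwa [MvPolynomial.coeff_monomial, if_pos rfl, MvPolynomial.coeff_zero] at h5
  · intro s' _ hs'
    rw [MvPolynomial.coeff_monomial, if_neg (fun h => hs' (hφ h))]
  · intro hs
    exact absurd (Finset.mem_univ s) hs

/-- independence of the values of the Cayley coordinates -/
theorem li_co (hn : Even n) {κ : Type} [Fintype κ] {D0 : ℕ} {b : κ → Fin n × Fin n → ℕ} {w : (Fin n × Fin n → ℕ) → κ → ℚ}
    (hw : ∀ s, dg s ≤ D0 → ∀ g ∈ SpS ℂ n, mnm g s = ∑ k, (w s k : ℂ) * mnm g (b k)) {k N : ℕ}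
    (hD : ∀ s : Sy n → Fin (N + 1), (Fs (Xm n) s).totalDegree ≤ D0) {Z : Fin k → Matrix (Fin n) (Fin n) ℂ}
    (hZ : ∀ l, Z l ∈ SpS ℂ n) (hcd : ∀ l, cd (Z l) ≠ 0)
    (hli : LinearIndependent ℚ (fun e : Fin k → κ => ∏ i, mnm (Z i) (b (e i)))) :
    LinearIndependent ℚ (fun s : Fin k × Sy n → Fin (N + 1) => ∏ i, co (Z i.1) i.2 ^ (s i : ℕ)) := by
  classical
  rw [Fintype.linearIndependent_iff]
  intro c hc
  have hexp : ∀ (g : Fin k → Matrix (Fin n) (Fin n) ℂ), (∀ l, g l ∈ SpS ℂ n) → ∑ s, (c s : ℂ) * ∏ l, Fs (g l) (fun p => s (l, p)) =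
      ∑ e : Fin k → κ, (((∑ s, c s * ∏ l, Mc w (fun p => s (l, p)) (e l) : ℚ)) : ℂ) * ∏ l, mnm (g l) (b (e l)) := by
    intro g hg
    have h1 : ∀ s : Fin k × Sy n → Fin (N + 1), ∏ l, Fs (g l) (fun p => s (l, p)) =
        ∑ e : Fin k → κ, ∏ l, ((Mc w (fun p => s (l, p)) (e l) : ℂ) * mnm (g l) (b (e l))) := by
      intro s
      rw [Finset.prod_congr rfl fun l _ => Fs_exp hw (fun p => s (l, p)) (hD _) (hg l), Finset.prod_univ_sum, Fintype.piFinset_univ]
    rw [Finset.sum_congr rfl fun s _ => by rw [h1 s]]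
    simp only [Finset.mul_sum]
    rw [Finset.sum_comm]
    refine Finset.sum_congr rfl fun e _ => ?_
    push_cast
    rw [Finset.sum_mul]
    refine Finset.sum_congr rfl fun s _ => ?_
    rw [Finset.prod_mul_distrib]
    ring
  -- the relation
  have h1 : ∑ s, (c s : ℂ) * ∏ l, Fs (Z l) (fun p => s (l, p)) = 0 := by
    have h2 : ∀ s : Fin k × Sy n → Fin (N + 1), ∏ l, Fs (Z l) (fun p => s (l, p)) =
        (∏ l, cd (Z l) ^ (N * Fintype.card (Sy n))) * ∏ i, co (Z i.1) i.2 ^ (s i : ℕ) := by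
      intro s
      rw [Fintype.prod_prod_type, ← Finset.prod_mul_distrib]
      refine Finset.prod_congr rfl fun l _ => ?_
      rw [Fs_co (hcd l)]
    have h3 : ∑ s, (c s : ℂ) * ∏ l, Fs (Z l) (fun p => s (l, p)) =
        (∏ l, cd (Z l) ^ (N * Fintype.card (Sy n))) * ∑ s, c s • ∏ i, co (Z i.1) i.2 ^ (s i : ℕ) := by
      rw [Finset.mul_sum]
      refine Finset.sum_congr rfl fun s _ => ?_
      rw [h2, Rat.smul_def]
      ring
    rw [h3, hc, mul_zero]
  rw [hexp Z hZ] at h1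
  have h2 := (Fintype.linearIndependent_iff.1 hli) (fun e => ∑ s, c s * ∏ l, Mc w (fun p => s (l, p)) (e l)) (by
    rw [← h1]
    refine Finset.sum_congr rfl fun e _ => ?_
    rw [Rat.smul_def])
  have h3 := box_fun hn (fun s => (c s : ℂ)) (fun g hg => by
    rw [hexp g hg]
    refine Finset.sum_eq_zero fun e _ => ?_
    rw [h2 e, Rat.cast_zero, zero_mul])
  intro s
  have h4 : (c s : ℂ) = 0 := congrFun h3 s
  exact_mod_cast h4

end Pool.Agent.Y124.TH
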