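import Pool.Agent.Y124.TG.Fi

/-!
# The truncated transcendence degree from independent numbers, abstract form
-/

set_option autoImplicit false

open Module Finset

namespace Pool.Agent.Y124.TH

open Pool.Agent.Y124.TD Pool.Agent.Y124.TG

/-- **The core** -/
theorem core_abs (r δ D s m M : ℕ) (Φ : ℕ → ℕ → ℕ) : ∃ N : ℕ, ∀ (K : IntermediateField ℚ ℂ) [FiniteDimensional ℚ K],
    finrank ℚ K ≤ D → ∀ (ι : Type) [Fintype ι], Fintype.card ι = M → ∀ z : ι → ℂ,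
      ∀ (j : Type) [Fintype j], Fintype.card j = r → ∀ x : j → ℂ,
        (∀ (c e : ℕ) (W₁ : Submodule K ℂ), (1 : ℂ) ∈ W₁ → (∀ x, z x ∈ W₁) → GR c e W₁ →
          ∃ (W₂ : Submodule K ℂ) (p : ℂ), (1 : ℂ) ∈ W₂ ∧ GR (Φ c e) (e + s) W₂ ∧ p ≠ 0 ∧ p ∈ W₂ ^ m ∧ ∀ i, p * x i ∈ W₂ ^ m) →
        LinearIndependent ℚ (fun s : j → Fin (N + 1) => ∏ i, x i ^ (s i : ℕ)) →
        ∃ σ : Fin (r - s) → ι, Function.Injective σ ∧ LIb K δ (fun i => z (σ i)) := by
  classical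
  by_cases hk : r ≤ s
  · refine ⟨0, ?_⟩
    intro K _ _ ι _ _ z j _ _ x _ _
    exact libz K δ z (by omega)
  push Not at hk
  obtain ⟨c₁, hc₁⟩ := gr_max D 0 δ M
  obtain ⟨N, hN⟩ := gr_li' (Φ c₁ (r - s - 1)) (r - s - 1 + s) r m (by omega)
  refine ⟨N, ?_⟩
  intro K _ hK ι _ hι z j _ hj x hz hx
  obtain ⟨e, σ, hσ, hek, hLI, hmax⟩ := exists_max K δ z
  have h1 : r - s ≤ e := by
    by_contra hlt
    push Not at hlt
    have h10 : (1 : ℂ) ∈ (1 : Submodule K ℂ) := Submodule.one_le.1 le_rfl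
    obtain ⟨W₁, hW₁, hzW₁, hG₁⟩ := hc₁ K 1 h10 (gr_one hK) ι hι z e σ hek hLI hmax
    have hG₁' := hG₁.mono_exp (e' := r - s - 1) (by omega)
    obtain ⟨W₂, p, h12, hG₂, hp0, hp, hpz⟩ := hz c₁ _ W₁ (hW₁ h10) hzW₁ hG₁'
    exact hN K W₂ h12 hG₂ j hj x p hp0 hp hpz hx
  exact ⟨fun i => σ (Fin.castLE h1 i), hσ.comp (Fin.castLE_injective h1), hLI.comp (Fin.castLE h1) (Fin.castLE_injective h1)⟩

variable {n : ℕ} {K : IntermediateField ℚ ℂ}

/-- squares -/
lemma gr_sq {c e : ℕ} {W : Submodule K ℂ} (h : GR c e W) : GR (c * 2 ^ e) e (W ^ 2) := by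
  intro n
  obtain ⟨q, F, h1, h2, h3, h4⟩ := h (2 * n)
  refine ⟨q, F, h1, h2, h3.trans ?_, fun x hx => h4 x (by rw [pow_mul]; exact hx)⟩
  calc c * (2 * n + 1) ^ e ≤ c * (2 * (n + 1)) ^ e := Nat.mul_le_mul_left _ (Nat.pow_le_pow_left (by omega) _)
    _ = c * 2 ^ e * (n + 1) ^ e := by rw [mul_pow, mul_assoc]

/-- a common denominator -/
lemma common {k d : ℕ} {σ : Type} {W : Submodule K ℂ} (p : Fin k → ℂ) (x : Fin k → σ → ℂ) (hp : ∀ l, p l ∈ W ^ d)
    (hx : ∀ l i, p l * x l i ∈ W ^ d) : ∏ l, p l ∈ W ^ (d * k) ∧ ∀ l i, (∏ l, p l) * x l i ∈ W ^ (d * k) := by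
  classical
  constructor
  · have h := mem_pow_prod (W := W) Finset.univ (fun _ : Fin k => d) p (fun i _ => hp i)
    rwa [Finset.sum_const, Finset.card_univ, Fintype.card_fin, smul_eq_mul, mul_comm] at h
  · intro l i
    have h := mem_pow_prod (W := W) Finset.univ (fun _ : Fin k => d) (fun l' => if l' = l then p l' * x l' i else p l') (fun l' _ => by
      split_ifs
      · exact hx l' i
      · exact hp l')
    rw [Finset.sum_const, Finset.card_univ, Fintype.card_fin, smul_eq_mul, mul_comm] at h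
    have h2 : ∏ l', (if l' = l then p l' * x l' i else p l') = (∏ l, p l) * x l i := by
      rw [← Finset.mul_prod_erase _ _ (Finset.mem_univ l), if_pos rfl, ← Finset.mul_prod_erase _ p (Finset.mem_univ l)]
      rw [Finset.prod_congr rfl fun l' hl' => if_neg (Finset.ne_of_mem_erase hl')]
      ring
    rwa [h2] at h

/-- a rational multiple -/
lemma mem_mulQ {V : Submodule K ℂ} {a : ℕ} (M : Matrix (Fin n) (Fin n) ℂ) (hM : ∀ i j, M i j ∈ V ^ a) (N : Matrix (Fin n) (Fin n) ℚ)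
    (i j : Fin n) : (M * N.map (algebraMap ℚ ℂ)) i j ∈ V ^ a := by
  rw [Matrix.mul_apply]
  refine Submodule.sum_mem _ fun k _ => ?_
  rw [Matrix.map_apply, eq_ratCast, mul_comm]
  exact mQ _ (hM i k)

/-- the numerators of the Cayley coordinates -/
lemma smul_cay {V : Submodule K ℂ} (hV : (1 : ℂ) ∈ V) {a : ℕ} {d : ℂ} {Z : Matrix (Fin n) (Fin n) ℂ} (hd : d ∈ V ^ a)
    (hZ : ∀ i j, d * Z i j ∈ V ^ a) (hn : n ≠ 0) (N : Matrix (Fin n) (Fin n) ℚ) :
    d ^ n * (Z + 1).det ∈ V ^ (a * (n + 1)) ∧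
      ∀ i j, d ^ n * ((Z - 1) * (Z + 1).adjugate * N.map (algebraMap ℚ ℂ)) i j ∈ V ^ (a * (n + 1)) := by
  have hone : ∀ i j : Fin n, d * (1 : Matrix (Fin n) (Fin n) ℂ) i j ∈ V ^ a := by
    intro i j
    rw [Matrix.one_apply]
    split_ifs
    · rw [mul_one]
      exact hd
    · rw [mul_zero]
      exact Submodule.zero_mem _
  have hp : ∀ i j, (d • (Z + 1)) i j ∈ V ^ a := by
    intro i j
    rw [Matrix.smul_apply, Matrix.add_apply, smul_eq_mul, mul_add]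
    exact Submodule.add_mem _ (hZ i j) (hone i j)
  have hm : ∀ i j, (d • (Z - 1)) i j ∈ V ^ a := by
    intro i j
    rw [Matrix.smul_apply, Matrix.sub_apply, smul_eq_mul, mul_sub]
    exact Submodule.sub_mem _ (hZ i j) (hone i j)
  constructor
  · have h1 := Y124.TG.det_mem (V := V ^ a) (d • (Z + 1)) hp
    rw [Matrix.det_smul, Fintype.card_fin, ← pow_mul] at h1
    exact pow_mem_mono hV (Nat.mul_le_mul_left _ (Nat.le_succ n)) h1
  · intro i j
    have h2 : (d • (Z - 1)) * (d • (Z + 1)).adjugate = d ^ n • ((Z - 1) * (Z + 1).adjugate) := by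
      rw [Matrix.adjugate_smul, Matrix.smul_mul, Matrix.mul_smul, smul_smul, Fintype.card_fin, ← pow_succ',
        Nat.sub_add_cancel (Nat.one_le_iff_ne_zero.2 hn)]
    have h3 := mul_mem' (V := V ^ a) (a := 1) (b := n) (d • (Z - 1)) (d • (Z + 1)).adjugate
      (fun i j => by rw [pow_one]; exact hm i j) (fun i j => adj_mem (one_mem_pow hV a) _ hp i j)
    rw [h2] at h3
    have h4 := mem_mulQ (V := V ^ a) (a := 1 + n) _ h3 N i j
    rw [Matrix.smul_mul, Matrix.smul_apply, smul_eq_mul, ← pow_mul] at h4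
    rw [add_comm n 1]
    exact h4

end Pool.Agent.Y124.TH
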