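import Pool.Agent.Y118.HG.Trd
import Pool.Agent.H340R2.LW

/-!
# A transcendence basis of the periods of the central fibre which contains `2πi`
-/

set_option autoImplicit false

open Matrix Polynomial Filter Topology

namespace Pool.Agent.Y124.TH

open Pool.Agent.Y118.HP Pool.Agent.Y118.HG Pool.Agent.Y113 Pool.Agent.Y37.GF

variable {n N : ℕ}

lemma transcendental_tpi : Transcendental ℚ (2 * Real.pi * Complex.I : ℂ) := by
  intro h
  apply Pool.Agent.H340R2.LW.transcendental_pi_complex
  have hI : IsAlgebraic ℚ Complex.I := by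
    refine ⟨Polynomial.X ^ 2 + 1, ?_, by simp⟩
    exact (Polynomial.monic_X_pow_add_C (1 : ℚ) two_ne_zero).ne_zero
  have h2 : IsAlgebraic ℚ ((2 : ℂ)⁻¹ * (-Complex.I)) := by
    refine IsAlgebraic.mul ?_ hI.neg
    have h3 : ((2 : ℂ)⁻¹) = algebraMap ℚ ℂ (2⁻¹) := by simp
    rw [h3]
    exact isAlgebraic_algebraMap _
  have h4 : (Real.pi : ℂ) = (2 * Real.pi * Complex.I : ℂ) * ((2 : ℂ)⁻¹ * (-Complex.I)) := by
    have h5 := Complex.I_mul_I
    linear_combination (Real.pi : ℂ) * h5
  rw [h4]
  exact h.mul h2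

/-- a transcendence basis of the periods of the central fibre -/
theorem exists_Tp (hn : Even n) {a : Fin n → ℝ} (ha : StrictMono a) {m : Fin (n + 1)} {f : ℚ[X]} (h0 : InGap a m 0)
    (hf : f.map (algebraMap ℚ ℝ) = ∏ i, (X - C (a i))) :
    ∃ (s : ℕ) (ω : Fin s → ℂ), ((s + 1 : ℕ) : Cardinal) ≤ Algebra.trdeg ℚ (IntermediateField.adjoin ℚ
        (Set.range (pt (fun _ : Fin 1 => CM a m 0) (2 * Real.pi * Complex.I)))) ∧
      2 * (s + 1) ≤ n * (n + 1) + 2 ∧
      (∀ i j, IsAlgebraic (Algebra.adjoin ℚ (Set.range (Fin.cons (2 * Real.pi * Complex.I : ℂ) ω : Fin (s + 1) → ℂ))) (CM a m 0 i j)) := by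
  classical
  set c0 : Option (Fin 1 × Fin n × Fin n) → ℂ := pt (fun _ : Fin 1 => CM a m 0) (2 * Real.pi * Complex.I) with hc0
  set M := AlgebraicIndependent.matroid ℚ ℂ with hM
  have hpi : M.Indep {(2 * Real.pi * Complex.I : ℂ)} := by
    rw [hM, AlgebraicIndependent.matroid_indep_iff]
    have h := (algebraicIndependent_unique_type_iff (R := ℚ)
      (x := fun i : ({(2 * Real.pi * Complex.I : ℂ)} : Set ℂ) => (i : ℂ))).2 transcendental_tpi
    exact h
  obtain ⟨B, hB, hBpi⟩ := hpi.subset_isBasis_of_subset (X := Set.range c0) (by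
    rintro _ rfl
    exact ⟨none, rfl⟩) (Set.subset_univ _)
  obtain ⟨hB1, hB2, hB3⟩ := AlgebraicIndependent.matroid_isBasis_iff.1 hB
  have hBfin : B.Finite := (Set.finite_range c0).subset hB2
  have hcard : B.encard = (hBfin.toFinset.card : ℕ∞) := hBfin.encard_eq_coe_toFinset_card
  have hmem : (2 * Real.pi * Complex.I : ℂ) ∈ hBfin.toFinset := by
    rw [Set.Finite.mem_toFinset]
    exact hBpi rfl
  set s : ℕ := (hBfin.toFinset.erase (2 * Real.pi * Complex.I)).card with hs
  have hs1 : s + 1 = hBfin.toFinset.card := Finset.card_erase_add_one hmem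
  set eq := (hBfin.toFinset.erase (2 * Real.pi * Complex.I)).equivFin.symm with heq
  refine ⟨s, fun i => (eq i : ℂ), ?_, ?_, ?_⟩
  · -- the transcendence degree
    rw [hs1]
    set F0 := IntermediateField.adjoin ℚ (Set.range c0) with hF0
    have hsub : ∀ b : B, (b : ℂ) ∈ F0 := fun b => IntermediateField.subset_adjoin ℚ _ (hB2 b.2)
    set x : B → F0 := fun b => ⟨b, hsub b⟩ with hx
    have h1 : AlgebraicIndependent ℚ x := by
      refine AlgebraicIndependent.of_comp (F0.val) ?_
      exact hB1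
    have h2 := h1.cardinalMk_le_trdeg
    have h3 : Cardinal.mk B = (hBfin.toFinset.card : Cardinal) := by
      rw [← Cardinal.mk_coe_finset]
      refine Cardinal.mk_congr (Equiv.setCongr ?_)
      ext z
      simp
    rw [← h3]
    exact h2
  · -- at most the dimension of the group
    rw [hs1]
    have hf0 : f.coeff 0 ≠ 0 := coeff_ne_of_gap h0 hf
    have Δ : ZDat n a m f := Classical.choice (exists_ZDat hn ha h0 hf hf0)
    have hAJ := AC_J hn ha h0 hf Δ.VJ
    have c : CDat n (AC a m Δ.V) := Classical.choice (exists_CDat hn hAJ)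
    obtain ⟨h1, h2⟩ := alg_w0 hn c
    have hCM : CM a m 0 = AC a m Δ.V * Δ.U.map (aeval (0 : ℂ)) := by
      unfold AC
      rw [Matrix.mul_assoc, ← map_aevalC_mul, Δ.VU, map_aevalC_one, mul_one]
    have h3 : ∀ o, IsAlgebraic (Algebra.adjoin ℚ (Set.range c.w0)) (c0 o) := by
      rintro (_ | ⟨l, i, j⟩)
      · exact h2
      · show IsAlgebraic _ (CM a m 0 i j)
        rw [hCM]
        have hL : (AC a m Δ.V * Δ.U.map (aeval (0 : ℂ))) i j ∈
            Subalgebra.algebraicClosure (Algebra.adjoin ℚ (Set.range c.w0)) ℂ := by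
          rw [Matrix.mul_apply]
          refine Subalgebra.sum_mem _ fun k _ => ?_
          refine (h1 i k).mul ?_
          rw [Matrix.map_apply]
          have h4 : (aeval (0 : ℂ) (Δ.U k j) : ℂ) = algebraMap ℚ ℂ (aeval (0 : ℚ) (Δ.U k j)) := by
            rw [← Polynomial.aeval_algebraMap_apply ℂ (0 : ℚ) (Δ.U k j), map_zero]
          rw [h4, IsScalarTower.algebraMap_apply ℚ (Algebra.adjoin ℚ (Set.range c.w0)) ℂ]
          exact isAlgebraic_algebraMap _
        exact hL
    have hcl : Set.range c0 ⊆ M.closure (Set.range c.w0) := by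
      rw [hM, AlgebraicIndependent.matroid_closure_eq]
      rintro _ ⟨o, rfl⟩
      exact h3 o
    have h5 : B.encard ≤ (Set.range c.w0).encard := by
      have e1 : M.eRk B = B.encard := hB.indep.eRk_eq_encard
      rw [← e1]
      refine (M.eRk_mono (hB2.trans hcl)).trans ?_
      rw [Matroid.eRk_closure_eq]
      exact M.eRk_le_encard _
    have h6 : (Set.range c.w0).encard ≤ (Fintype.card (Option (Sy n)) : ℕ∞) := by
      rw [← Set.image_univ]
      refine (Set.encard_image_le _ _).trans ?_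
      rw [Set.encard_univ, ENat.card_eq_coe_fintype_card]
    rw [hcard] at h5
    have h7 : hBfin.toFinset.card ≤ Fintype.card (Option (Sy n)) := by exact_mod_cast h5.trans h6
    rw [Fintype.card_option] at h7
    have h8 := card_Sy n
    omega
  · intro i j
    have h1 : B = Set.range (Fin.cons (2 * Real.pi * Complex.I : ℂ) (fun i => (eq i : ℂ)) : Fin (s + 1) → ℂ) := by
      rw [Fin.range_cons]
      ext z
      rw [Set.mem_insert_iff, Set.mem_range]
      constructor
      · intro hz
        by_cases h : z = 2 * Real.pi * Complex.I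
        · exact Or.inl h
        · right
          refine ⟨eq.symm ⟨z, Finset.mem_erase.2 ⟨h, by rwa [Set.Finite.mem_toFinset]⟩⟩, ?_⟩
          rw [Equiv.apply_symm_apply]
      · rintro (rfl | ⟨i, rfl⟩)
        · exact hBpi rfl
        · have := (Finset.mem_erase.1 (eq i).2).2
          rwa [Set.Finite.mem_toFinset] at this
    rw [← h1]
    exact hB3 _ ⟨some (0, i, j), rfl⟩

end Pool.Agent.Y124.TH
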