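import Pool.Agent.Y124.TH.Ba
import Pool.Agent.Y124.TH.Ca
import Pool.Agent.Y124.TH.Tb

/-!
# The transcendence degree of the periods of hyperelliptic curves at several points
-/

set_option autoImplicit false

open Matrix Polynomial Module

namespace Pool.Agent.Y124.TH

open Pool.Agent.Y118.HP Pool.Agent.Y118.HG Pool.Agent.Y113 Pool.Agent.Y37.GF Pool.Agent.Y124.TD

variable {n : ℕ}

lemma map_q (M : Matrix (Fin n) (Fin n) ℚ[X]) {x : ℂ} (q : ℚ) (hx : x = (q : ℂ)) :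
    M.map (aeval x) = (M.map (Polynomial.eval q)).map (algebraMap ℚ ℂ) := by
  subst hx
  ext i j
  rw [Matrix.map_apply, Matrix.map_apply, Matrix.map_apply]
  have h := Polynomial.aeval_algebraMap_apply_eq_algebraMap_eval (A := ℂ) q (M i j)
  rw [← h]
  simp

lemma tpi_mem {K : IntermediateField ℚ ℂ} (hn : Even n) (hn0 : n ≠ 0) {a : Fin n → ℝ} (ha : StrictMono a) {m : Fin (n + 1)} {f : ℚ[X]}
    (hf : f.map (algebraMap ℚ ℝ) = ∏ i, (X - C (a i))) {t : ℚ} (ht : InGap a m (t : ℝ)) {W : Submodule K ℂ}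
    (hW : ∀ i j, CM a m (t : ℝ) i j ∈ W) : (2 * Real.pi * Complex.I : ℂ) ∈ W ^ 2 := by
  have h1 := CM_mem hn ha hf ht
  have hj : ∃ r c, jm ℚ n r c ≠ 0 := by
    by_contra hcon
    push Not at hcon
    have h2 : jm ℚ n = 0 := by
      ext r c
      exact hcon r c
    have h3 := jm_det (K := ℚ) hn
    have : Nonempty (Fin n) := ⟨⟨0, Nat.pos_of_ne_zero hn0⟩⟩
    rw [h2, Matrix.det_zero] at h3
    exact h3 rfl
  obtain ⟨r, c, hrc⟩ := hj
  have h4 : ((-1 / 2 : ℂ) • (Qp n f).map (aeval (t : ℂ))) =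
      ((-1 / 2 : ℚ) • (Qp n f).map (Polynomial.eval t)).map (algebraMap ℚ ℂ) := by
    rw [map_q (Qp n f) t rfl]
    ext i j
    simp [Matrix.smul_apply]
  rw [h4] at h1
  have hW1 : ∀ i j, CM a m (t : ℝ) i j ∈ W ^ 1 := fun i j => by
    rw [pow_one]
    exact hW i j
  have h5 := Y124.TG.mul_mem' (V := W) (a := 1) (b := 1) _ (CM a m (t : ℝ)).transpose
    (mem_mulQ (V := W) (a := 1) _ hW1 ((-1 / 2 : ℚ) • (Qp n f).map (Polynomial.eval t))) (fun i j => hW1 j i) r c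
  rw [h1, Matrix.smul_apply, smul_eq_mul, ← jm_map (algebraMap ℚ ℂ), Matrix.map_apply, eq_ratCast] at h5
  have h6 := Y124.TG.mQ ((jm ℚ n r c)⁻¹) h5
  have h7 : ((jm ℚ n r c : ℚ) : ℂ) ≠ 0 := by exact_mod_cast hrc
  have h8 : (((jm ℚ n r c)⁻¹ : ℚ) : ℂ) * ((2 * Real.pi * Complex.I : ℂ) * ((jm ℚ n r c : ℚ) : ℂ)) = 2 * Real.pi * Complex.I := by
    push_cast
    field_simp
  rw [h8] at h6
  exact h6

theorem main (hn : Even n) (a : Fin n → ℝ) (f : ℚ[X]) (hf : f.map (algebraMap ℚ ℝ) = ∏ i, (X - C (a i))) (m : Fin (n + 1))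
    (h0 : StrictMono (er a m 0)) :
    ∃ G0 s : ℕ, (s : Cardinal) ≤ Algebra.trdeg ℚ (IntermediateField.adjoin ℚ
        (Set.range (Y118.HP.pt (fun _ : Fin 1 => Matrix.of (cper (er a m 0))) (2 * Real.pi * Complex.I)))) ∧
      2 * s ≤ n * (n + 1) + 2 ∧
      ∀ k δ D : ℕ, ∃ E : ℕ, ∀ H t : ℕ, (H + 2) ^ E ≤ t → H < t ∧ ∀ g : Fin k → ℕ, SepN G0 g → (∀ l, g l ≤ H) →
        (∀ l, StrictMono (er a m (1 / ((t : ℝ) - g l)))) ∧
        ∀ (K : IntermediateField ℚ ℂ) [FiniteDimensional ℚ K], finrank ℚ K ≤ D → ∀ z : Fin k × Fin n × Fin n → ℂ,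
          (∀ V : Submodule K ℂ, (∀ x, z x ∈ V) → ∀ l i j, cper (er a m (1 / ((t : ℝ) - g l))) i j ∈ V) →
          ∃ σ : Fin (k * (n * (n + 1) / 2) + 1 - s) → Fin k × Fin n × Fin n, Function.Injective σ ∧ LIb K δ (fun i => z (σ i)) := by
  classical
  have ha : StrictMono a := (inGap_of_er h0).1
  have hg0 : InGap a m 0 := (inGap_of_er h0).2
  have hf0 : f.coeff 0 ≠ 0 := coeff_ne_of_gap hg0 hf
  obtain ⟨s, ω, hs1, hs2, hω⟩ := exists_Tp hn ha hg0 hf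
  obtain ⟨G0, hG0, hsep⟩ := exists_G0 a
  refine ⟨G0, s + 1, hs1, hs2, fun k δ D => ?_⟩
  rcases Nat.eq_zero_or_pos n with hn0 | hn0'
  · subst hn0
    have hss : Subsingleton (Fin (0 + 1)) := inferInstanceAs (Subsingleton (Fin 1))
    refine ⟨1, fun H t ht => ⟨by rw [pow_one] at ht; omega, fun g hg hgH => ⟨fun l => Subsingleton.strictMono _, fun K _ hK z hz => ?_⟩⟩⟩
    exact Y124.TG.libz K δ z (by simp)
  have hn0 : n ≠ 0 := hn0'.ne'
  have Δ : ZDat n a m f := Classical.choice (exists_ZDat hn ha hg0 hf hf0)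
  choose av mv lv κv hl0 hrel hmem using fun p : Fin n × Fin n =>
    Y124.TG.alg_rel (Fin.cons (2 * Real.pi * Complex.I : ℂ) ω : Fin (s + 1) → ℂ) (hω p.1 p.2)
  choose Ψ hΨ using fun c e : ℕ => Y124.TG.gr_algs2 (c * 2 ^ e) (e + s) (Finset.univ.sup av) (Finset.univ.sup fun p => mv p + 1)
    (Fintype.card (Fin n × Fin n))
  have hcardS : Fintype.card (Sy n) = n * (n + 1) / 2 := by
    have := card_Sy n
    omega
  obtain ⟨N, hN⟩ := core_abs (k * (n * (n + 1) / 2)) δ D s ((n + 1) * (n + 1) * k) (k * (n * n)) Ψ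
  obtain ⟨E, hE⟩ := base hn hn0 ha hg0 hf hf0 Δ hsep k N
  refine ⟨E, fun H t ht => ?_⟩
  obtain ⟨hHt, h1⟩ := hE H t ht
  refine ⟨hHt, fun g hg hgH => ?_⟩
  obtain ⟨h2, hli⟩ := h1 g hg hgH
  refine ⟨fun l => er_of_inGap ha (h2 l).1, fun K _ hK z hz => ?_⟩
  rcases Nat.eq_zero_or_pos k with hk | hk
  · exact Y124.TG.libz K δ z (by rw [hk]; simp)
  rw [Nat.add_sub_add_right]
  refine hN K hK _ (by rw [Fintype.card_prod, Fintype.card_prod, Fintype.card_fin, Fintype.card_fin]) z (Fin k × Sy n)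
    (by rw [Fintype.card_prod, Fintype.card_fin, hcardS]) (fun i => co (Zc Δ.Z (1 / ((t : ℝ) - g i.1))) i.2) (fun c e W₁ h1 hzW hG => ?_) hli
  have hcast : ∀ l, (((1 / ((t : ℚ) - (g l : ℕ)) : ℚ)) : ℝ) = 1 / ((t : ℝ) - g l) := fun l => by push_cast; rfl
  have hcastC : ∀ l, (((1 / ((t : ℝ) - g l) : ℝ)) : ℂ) = (((1 / ((t : ℚ) - (g l : ℕ)) : ℚ)) : ℂ) := fun l => by push_cast; rfl
  have hP : ∀ l i j, CM a m (1 / ((t : ℝ) - g l)) i j ∈ W₁ := hz W₁ hzW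
  have hW2 : W₁ ≤ W₁ ^ 2 := fun x hx => pow_mem_mono h1 (a := 1) (by norm_num) (by rwa [pow_one])
  have h11 : (1 : ℂ) ∈ W₁ ^ 2 := one_mem_pow h1 2
  have hpi : (2 * Real.pi * Complex.I : ℂ) ∈ W₁ ^ 2 := by
    refine tpi_mem (m := m) hn hn0 ha hf (t := 1 / ((t : ℚ) - (g ⟨0, hk⟩ : ℕ))) ?_ ?_
    · rw [hcast]
      exact (h2 ⟨0, hk⟩).1
    · rw [hcast]
      exact hP ⟨0, hk⟩
  obtain ⟨V₁, hV₁, hωV, hG₁⟩ := gr_fam (c * 2 ^ e) s e (W₁ ^ 2) h11 (gr_sq hG) ω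
  have h12 : (1 : ℂ) ∈ V₁ := hV₁ h11
  have hωV' : ∀ i, (Fin.cons (2 * Real.pi * Complex.I : ℂ) ω : Fin (s + 1) → ℂ) i ∈ V₁ := by
    intro i
    refine Fin.cases ?_ (fun i => ?_) i
    · rw [Fin.cons_zero]
      exact hV₁ hpi
    · rw [Fin.cons_succ]
      exact hωV i
  obtain ⟨V', hV', hCV, hG'⟩ := hΨ c e K V₁ h12 hG₁ (Fin n × Fin n) rfl (fun p => CM a m 0 p.1 p.2) (fun p => by
    obtain ⟨h2, h3⟩ := hmem p K V₁ h12 hωV'
    have hle : av p ≤ Finset.univ.sup av := Finset.le_sup (Finset.mem_univ p)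
    exact ⟨mv p, lv p, κv p, Finset.le_sup (f := fun p => mv p + 1) (Finset.mem_univ p), hl0 p, pow_mem_mono h12 hle h2,
      fun j => pow_mem_mono h12 hle (h3 j), hrel p⟩)
  have h13 : (1 : ℂ) ∈ V' := hV' h12
  have hPV : ∀ l i j, CM a m (1 / ((t : ℝ) - g l)) i j ∈ V' ^ 1 := fun l i j => by
    rw [pow_one]
    exact hV' (hV₁ (hW2 (hP l i j)))
  have hAV : ∀ i j, AC a m Δ.V i j ∈ V' := by
    intro i j
    have h3 := mem_mulQ (V := V') (a := 1) (CM a m 0) (fun i j => by rw [pow_one]; exact hCV (i, j)) (Δ.V.map (Polynomial.eval (0 : ℚ))) i j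
    rw [← map_q Δ.V (x := 0) 0 (by simp), pow_one] at h3
    exact h3
  have hdet : (AC a m Δ.V).det ≠ 0 := by
    intro h3
    have h4 := congrArg Matrix.det (AC_J hn ha hg0 hf Δ.VJ)
    rw [Matrix.det_mul, Matrix.det_mul, h3, zero_mul, zero_mul, Matrix.det_smul] at h4
    have h5 : (-4 * Real.pi * Complex.I : ℂ) ≠ 0 := by
      have h6 : (Real.pi : ℂ) ≠ 0 := by exact_mod_cast Real.pi_ne_zero
      exact mul_ne_zero (mul_ne_zero (by norm_num) h6) Complex.I_ne_zero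
    exact mul_ne_zero (pow_ne_zero _ h5) (jm_det (K := ℂ) hn) h4.symm
  have hZV : ∀ l i j, (AC a m Δ.V).det * Zc Δ.Z (1 / ((t : ℝ) - g l)) i j ∈ V' ^ (n + 1) := by
    intro l i j
    have h3 : CM a m (1 / ((t : ℝ) - g l)) * Δ.V.map (aeval (((1 / ((t : ℝ) - g l) : ℝ)) : ℂ)) = AC a m Δ.V * Zc Δ.Z (1 / ((t : ℝ) - g l)) := by
      rw [(h2 l).2.1, Matrix.mul_assoc, ← map_aevalC_mul, Δ.UV, map_aevalC_one, mul_one]
    have h4 : (AC a m Δ.V).adjugate * (CM a m (1 / ((t : ℝ) - g l)) * Δ.V.map (aeval (((1 / ((t : ℝ) - g l) : ℝ)) : ℂ))) =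
        (AC a m Δ.V).det • Zc Δ.Z (1 / ((t : ℝ) - g l)) := by
      rw [h3, ← Matrix.mul_assoc, Matrix.adjugate_mul, Matrix.smul_mul, one_mul]
    have h5 := congrFun (congrFun h4 i) j
    rw [Matrix.smul_apply, smul_eq_mul] at h5
    rw [← h5]
    refine Y124.TG.mul_mem' (V := V') (a := n) (b := 1) _ _ (Y124.TG.adj_mem h13 _ hAV) ?_ i j
    rw [map_q Δ.V _ (hcastC l)]
    exact mem_mulQ (V := V') (a := 1) _ (hPV l) _
  have hd : (AC a m Δ.V).det ∈ V' ^ (n + 1) := pow_mem_mono h13 (Nat.le_succ n) (Y124.TG.det_mem _ hAV)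
  have hcay := fun l => smul_cay (V := V') h13 hd (hZV l) hn0 (jm ℚ n)
  obtain ⟨h3, h4⟩ := common (k := k) (d := (n + 1) * (n + 1)) (W := V') (fun l => (AC a m Δ.V).det ^ n * cd (Zc Δ.Z (1 / ((t : ℝ) - g l))))
    (fun l p => co (Zc Δ.Z (1 / ((t : ℝ) - g l))) p) (fun l => (hcay l).1) (fun l p => by
      rw [mul_assoc, ← cn_eq (h2 l).2.2]
      have h5 := (hcay l).2 p.1.1 p.1.2
      rw [jm_map] at h5
      exact h5)
  exact ⟨V', _, h13, hG', Finset.prod_ne_zero_iff.2 fun l _ => mul_ne_zero (pow_ne_zero _ hdet) (h2 l).2.2, h3, fun i => h4 i.1 i.2⟩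

end Pool.Agent.Y124.TH
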